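import Mathlib

set_option autoImplicit false

namespace Pool.Agent.H.MP_317a58_an

open Finset

abbrev I := Fin 6 × Fin 6

variable (𝕜 : Type*) [RCLike 𝕜]

/-- matrices with all row sums and all column sums zero -/
def G : Submodule 𝕜 (I → 𝕜) where
  carrier := {x | (∀ a, ∑ b, x (a, b) = 0) ∧ ∀ b, ∑ a, x (a, b) = 0}
  add_mem' := fun {x y} hx hy => ⟨fun a => by simp [sum_add_distrib, hx.1 a, hy.1 a],
    fun b => by simp [sum_add_distrib, hx.2 b, hy.2 b]⟩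
  zero_mem' := ⟨fun a => by simp, fun b => by simp⟩
  smul_mem' := fun c x hx => ⟨fun a => by simp [← mul_sum, hx.1 a],
    fun b => by simp [← mul_sum, hx.2 b]⟩

lemma ex_vec (a c d : Fin 6) : ∃ v : Fin 6 → 𝕜, ∑ x, v x = 0 ∧ v a = 1 ∧ (c ≠ a → v c = 0) ∧
    (d ≠ a → v d = 0) ∧ (∀ x, x ≠ a → ‖v x‖ ≤ 1 / 3) := by
  have h : 3 ≤ (univ \ ({a, c, d} : Finset (Fin 6))).card := by
    rw [card_univ_sdiff, Fintype.card_fin]
    have := card_le_three (a := a) (b := c) (c := d)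
    omega
  obtain ⟨S, hS, hc⟩ := exists_subset_card_eq h
  have hm : ∀ x ∈ S, x ≠ a ∧ x ≠ c ∧ x ≠ d := fun x hx => by simpa [not_or] using hS hx
  refine ⟨fun x => (if x = a then 1 else 0) - if x ∈ S then 1 / 3 else 0, ?_, ?_, ?_, ?_, ?_⟩
  · rw [sum_sub_distrib, sum_ite_mem, univ_inter, sum_const, hc]
    simp
  · have : a ∉ S := fun h => (hm a h).1 rfl
    simp [this]
  · intro h1
    have : c ∉ S := fun h => (hm c h).2.1 rfl
    simp [this, h1]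
  · intro h1
    have : d ∉ S := fun h => (hm d h).2.2 rfl
    simp [this, h1]
  · intro x hx
    by_cases h1 : x ∈ S <;> simp [hx, h1]

lemma ex_p (i j l : I) : ∃ p : G 𝕜, p.1 i = 1 ∧ (j ≠ i → p.1 j = 0) ∧ (l ≠ i → p.1 l = 0) ∧
    ∀ m, m ≠ i → ‖p.1 m‖ ≤ 1 / 3 := by
  obtain ⟨v, v0, v1, v2, v3, v4⟩ := ex_vec 𝕜 i.1 j.1 l.1
  obtain ⟨w, w0, w1, w2, w3, w4⟩ := ex_vec 𝕜 i.2 j.2 l.2
  have v5 : ∀ x, ‖v x‖ ≤ 1 := fun x => by
    by_cases h : x = i.1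
    · simp [h, v1]
    · linarith [v4 x h]
  have w5 : ∀ x, ‖w x‖ ≤ 1 := fun x => by
    by_cases h : x = i.2
    · simp [h, w1]
    · linarith [w4 x h]
  refine ⟨⟨fun m => v m.1 * w m.2, fun a => by simp [← mul_sum, w0],
    fun b => by simp [← sum_mul, v0]⟩, by simp [v1, w1], fun h => ?_, fun h => ?_, fun m h => ?_⟩
  · by_cases h1 : j.1 = i.1
    · simp [w2 fun h2 => h (Prod.ext h1 h2)]
    · simp [v2 h1]
  · by_cases h1 : l.1 = i.1
    · simp [w3 fun h2 => h (Prod.ext h1 h2)]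
    · simp [v3 h1]
  · simp only [norm_mul]
    by_cases h1 : m.1 = i.1
    · have := w4 _ fun h2 => h (Prod.ext h1 h2)
      nlinarith [v5 m.1, norm_nonneg (v m.1), norm_nonneg (w m.2)]
    · nlinarith [v4 _ h1, w5 m.2, norm_nonneg (v m.1), norm_nonneg (w m.2)]

variable {𝕜}

lemma three {u : G 𝕜} (hu : u ≠ 0) : ∃ i j l : I, i ≠ j ∧ i ≠ l ∧ j ≠ l ∧
    u.1 i ≠ 0 ∧ u.1 j ≠ 0 ∧ u.1 l ≠ 0 := by
  obtain ⟨⟨a, b⟩, h⟩ : ∃ i, u.1 i ≠ 0 := by
    by_contra! hc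
    exact hu (Subtype.ext (funext hc))
  obtain ⟨b', hb, hb'⟩ : ∃ b', b' ≠ b ∧ u.1 (a, b') ≠ 0 := by
    by_contra! hc
    exact h ((sum_eq_single b (fun x _ hx => hc x hx) (by simp)).symm.trans (u.2.1 a))
  obtain ⟨a', ha, ha'⟩ : ∃ a', a' ≠ a ∧ u.1 (a', b) ≠ 0 := by
    by_contra! hc
    exact h ((sum_eq_single (f := fun x => u.1 (x, b)) a (fun x _ hx => hc x hx)
      (by simp)).symm.trans (u.2.2 b))
  exact ⟨(a, b), (a, b'), (a', b), by simp [hb.symm], by simp [ha.symm], by simp [ha.symm],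
    h, hb', ha'⟩

lemma nrm_le (g : G 𝕜) (i : I) : ‖g.1 i‖ ≤ ‖g‖ := norm_le_pi_norm g.1 i

lemma nrm_le_iff {g : G 𝕜} {r : ℝ} (hr : 0 ≤ r) : ‖g‖ ≤ r ↔ ∀ i, ‖g.1 i‖ ≤ r :=
  pi_norm_le_iff_of_nonneg (x := g.1) hr

/-- a linear functional vanishing on a wall vanishes where both coordinates vanish -/
lemma wall {i j : I} (hij : i ≠ j) {ω : 𝕜} (hω : ‖ω‖ = 1) (φ : G 𝕜 →ₗ[𝕜] 𝕜)
    (h : ∀ g : G 𝕜, ‖g‖ ≤ 1 → g.1 i = 1 → g.1 j = ω → φ g = 0) :
    (∃ g : G 𝕜, ‖g‖ ≤ 1 ∧ g.1 i = 1 ∧ g.1 j = ω) ∧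
      ∀ g : G 𝕜, g.1 i = 0 → g.1 j = 0 → φ g = 0 := by
  obtain ⟨p, p1, p2, -, p4⟩ := ex_p 𝕜 i j j
  obtain ⟨q, q1, q2, -, q4⟩ := ex_p 𝕜 j i i
  have key : ∀ g : G 𝕜, ‖g‖ ≤ 1 / 3 → g.1 i = 0 → g.1 j = 0 →
      ‖p + ω • q + g‖ ≤ 1 ∧ (p + ω • q + g).1 i = 1 ∧ (p + ω • q + g).1 j = ω := by
    intro g g0 g1 g2
    have e1 : (p + ω • q + g).1 i = 1 := by simp [p1, q2 hij, g1]
    have e2 : (p + ω • q + g).1 j = ω := by simp [p2 hij.symm, q1, g2]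
    refine ⟨(nrm_le_iff zero_le_one).2 fun m => ?_, e1, e2⟩
    by_cases h1 : m = i
    · rw [h1, e1, norm_one]
    by_cases h2 : m = j
    · rw [h2, e2, hω]
    have e3 : (p + ω • q + g).1 m = p.1 m + ω * q.1 m + g.1 m := by simp
    rw [e3]
    refine (norm_add₃_le).trans ?_
    rw [norm_mul, hω, one_mul]
    linarith [p4 m h1, q4 m h2, nrm_le g m]
  have k0 := key 0 (by simp) rfl rfl
  refine ⟨⟨_, k0⟩, fun g g1 g2 => ?_⟩
  have hp : 0 < 3 * (‖g‖ + 1) := by positivity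
  have k1 := key (((3 * (‖g‖ + 1))⁻¹ : ℝ) • g) (by
    rw [norm_smul, Real.norm_of_nonneg (inv_nonneg.2 hp.le), inv_mul_le_iff₀ hp]
    linarith) (by simp [g1]) (by simp [g2])
  have e0 := h _ k0.1 k0.2.1 k0.2.2
  have e1 := h _ k1.1 k1.2.1 k1.2.2
  rw [add_zero] at e0
  rw [map_add, e0, zero_add, ← algebraMap_smul 𝕜, map_smul, smul_eq_zero] at e1
  exact e1.resolve_left ((map_ne_zero_iff _ (algebraMap ℝ 𝕜).injective).2 (inv_ne_zero hp.ne'))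

/-- no contraction is a rank one perturbation of the identity -/
lemma s2 {u : G 𝕜} (hu : u ≠ 0) (ℓ : G 𝕜 →ₗ[𝕜] 𝕜) (h : ∀ g, ‖g - ℓ g • u‖ ≤ ‖g‖) : ℓ = 0 := by
  have k1 : ∀ (g : G 𝕜) i, ‖g‖ ≤ 1 → g.1 i = 1 →
      ‖ℓ g * u.1 i‖ ^ 2 ≤ 2 * RCLike.re (ℓ g * u.1 i) := by
    intro g i g0 g1
    have e := ((nrm_le _ i).trans (h g)).trans g0
    have e1 : (g - ℓ g • u).1 i = 1 - ℓ g * u.1 i := by simp [g1]
    rw [e1] at e
    have e2 : ‖1 - ℓ g * u.1 i‖ ^ 2 ≤ 1 := by nlinarith [norm_nonneg (1 - ℓ g * u.1 i)]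
    rw [RCLike.norm_sq_eq_def] at e2 ⊢
    simp only [map_sub, RCLike.one_re, RCLike.one_im] at e2
    nlinarith
  have k2 : ∀ i j : I, i ≠ j → u.1 i ≠ 0 → u.1 j ≠ 0 →
      ∀ g : G 𝕜, g.1 i = 0 → g.1 j = 0 → ℓ g = 0 := by
    intro i j hij hi hj
    have ni : (‖u.1 i‖ : 𝕜) ≠ 0 := by simpa using hi
    have nj : (‖u.1 j‖ : 𝕜) ≠ 0 := by simpa using hj
    have hω : ‖-(u.1 j / ‖u.1 j‖) / (u.1 i / ‖u.1 i‖)‖ = 1 := by
      simp [hi, hj]
    refine (wall hij hω ℓ fun g g0 g1 g2 => ?_).2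
    have a1 := k1 g i g0 g1
    have hω0 : -(u.1 j / ‖u.1 j‖) / (u.1 i / ‖u.1 i‖) ≠ 0 := by
      rw [← norm_ne_zero_iff, hω]; exact one_ne_zero
    have a2 := k1 ((-(u.1 j / ‖u.1 j‖) / (u.1 i / ‖u.1 i‖))⁻¹ • g) j
      (by rwa [norm_smul, norm_inv, hω, inv_one, one_mul])
      (by
        change (-(u.1 j / ‖u.1 j‖) / (u.1 i / ‖u.1 i‖))⁻¹ * g.1 j = 1
        rw [g2, inv_mul_cancel₀ hω0])
    have a3 : ℓ ((-(u.1 j / ‖u.1 j‖) / (u.1 i / ‖u.1 i‖))⁻¹ • g) * u.1 j =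
        ((-(‖u.1 j‖ / ‖u.1 i‖) : ℝ) : 𝕜) * (ℓ g * u.1 i) := by
      rw [map_smul, smul_eq_mul]
      push_cast
      field_simp
    rw [a3, RCLike.re_ofReal_mul] at a2
    have a4 : 0 < ‖u.1 j‖ / ‖u.1 i‖ := div_pos (norm_pos_iff.2 hj) (norm_pos_iff.2 hi)
    have a5 : RCLike.re (ℓ g * u.1 i) ≤ 0 := by
      by_contra! hc
      nlinarith [sq_nonneg ‖((-(‖u.1 j‖ / ‖u.1 i‖) : ℝ) : 𝕜) * (ℓ g * u.1 i)‖, mul_pos a4 hc]
    have a6 : ‖ℓ g * u.1 i‖ = 0 := by nlinarith [norm_nonneg (ℓ g * u.1 i)]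
    simpa [hi] using a6
  obtain ⟨i, j, l, hij, hil, hjl, hi, hj, hl⟩ := three hu
  obtain ⟨p, p1, p2, p3, -⟩ := ex_p 𝕜 i j l
  obtain ⟨q, q1, q2, q3, -⟩ := ex_p 𝕜 j i l
  ext g
  have e1 := k2 j l hjl hj hl p (p2 hij.symm) (p3 hil.symm)
  have e2 := k2 i l hil hi hl q (q2 hij) (q3 hjl.symm)
  have e3 := k2 i j hij hi hj (g - g.1 i • p - g.1 j • q) (by simp [p1, q2 hij])
    (by simp [q1, p2 hij.symm])
  simpa [e1, e2] using e3

/-- weights -/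
def τ (i : I) : ℝ := if i = (0, 0) then 2 else 1

lemma τ1 (i : I) : 1 ≤ τ i := by unfold τ; split_ifs <;> norm_num

lemma τ2 (i : I) : τ i ≤ 2 := by unfold τ; split_ifs <;> norm_num

/-- near the identity the only solution is the identity -/
lemma s1 (A : G 𝕜 →ₗ[𝕜] G 𝕜) (N : G 𝕜 → ℝ) (N0 : ∀ g, 0 ≤ N g) (N1 : N 0 = 0)
    (Nadd : ∀ (g w : G 𝕜) (s : 𝕜), N (g + s • w) ≤ N g + ‖s‖ * N w)
    (h : ∀ (g v : G 𝕜) (M : ℝ), (∀ j, ‖(g - (v - A v)).1 j‖ + τ j * N v ≤ M) →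
      ∀ i, ‖(A g).1 i‖ + τ i * N g ≤ M)
    (hp : ∀ i, ∃ p : G 𝕜, p.1 i = 1 ∧ (∀ m, m ≠ i → ‖p.1 m‖ ≤ 1 / 3) ∧ ‖p - A p‖ ≤ 1 / 10) :
    A = LinearMap.id := by
  have con : ∀ (g : G 𝕜) i, ‖(A g).1 i‖ + τ i * N g ≤ ‖g‖ := fun g =>
    h g 0 ‖g‖ fun j => by simpa [N1] using nrm_le g j
  have sub : ∀ (w : G 𝕜) i, ‖(w - A w).1 i‖ ≤ τ i * N w := by
    intro w i
    obtain ⟨p, p1, p2, p3⟩ := hp i
    have np : ‖p‖ ≤ 1 := (nrm_le_iff zero_le_one).2 fun m => by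
      by_cases hm : m = i
      · rw [hm, p1, norm_one]
      · linarith [p2 m hm]
    have c1 : ∀ m, ‖(A p).1 m - p.1 m‖ ≤ 1 / 10 := fun m => by
      rw [norm_sub_rev]
      exact (nrm_le (p - A p) m).trans p3
    have a1 : 9 / 10 ≤ ‖(A p).1 i‖ := by
      have := norm_sub_norm_le (p.1 i) ((A p).1 i)
      rw [p1, norm_one, ← p1, norm_sub_rev] at this
      linarith [c1 i]
    have a2 : N p ≤ 1 / 10 := by nlinarith [con p i, τ1 i, N0 p]
    set a := (A p).1 i with ha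
    set β := (w - A w).1 i with hβ
    by_cases hβ0 : β = 0
    · rw [hβ0, norm_zero]
      exact mul_nonneg (zero_le_one.trans (τ1 i)) (N0 w)
    set K := ‖w - A w‖ + 2 * N w + 1 with hK
    have K1 : 0 < K := by have := N0 w; positivity
    have βK : ‖β‖ ≤ ‖w - A w‖ := nrm_le _ i
    set ε := 1 / (10 * K) with hε
    have ε0 : 0 < ε := by positivity
    have εK : ε * K = 1 / 10 := by rw [hε]; field_simp
    have a0 : a ≠ 0 := by rw [← norm_pos_iff]; linarith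
    have na : (‖a‖ : 𝕜) ≠ 0 := by simpa using a0
    set s : 𝕜 := (ε : 𝕜) * (a / ‖a‖) * (‖β‖ / β) with hs
    have ns : ‖s‖ = ε := by
      simp [hs, a0, hβ0, abs_of_pos ε0]
    have e1 : ‖a - s * β‖ = ‖a‖ - ε * ‖β‖ := by
      have : a - s * β = ((‖a‖ - ε * ‖β‖ : ℝ) : 𝕜) * (a / ‖a‖) := by
        rw [hs]
        push_cast
        field_simp
      rw [this, norm_mul, RCLike.norm_ofReal, abs_of_nonneg (by nlinarith [N0 w])]
      simp [a0]
    have e2 : p - (p + s • w - A (p + s • w)) = A p - s • (w - A w) := by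
      rw [map_add, map_smul, smul_sub]; abel
    have e3 := Nadd p w s
    rw [ns] at e3
    have := h p (p + s • w) (‖a‖ - ε * ‖β‖ + τ i * (N p + ε * N w)) (fun j => by
      rw [e2]
      have t1 := τ1 j
      have t2 := τ2 j
      by_cases hj : j = i
      · rw [hj]
        change ‖a - s * β‖ + _ ≤ _
        rw [e1]
        nlinarith [τ1 i]
      · have e4 : ‖(A p - s • (w - A w)).1 j‖ ≤ ‖(A p).1 j‖ + ε * ‖w - A w‖ := by
          change ‖(A p).1 j - s * (w - A w).1 j‖ ≤ _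
          refine (norm_sub_le _ _).trans ?_
          rw [norm_mul, ns]
          gcongr
          exact nrm_le _ j
        have e5 : ‖(A p).1 j‖ ≤ 1 / 3 + 1 / 10 := by
          have := norm_sub_norm_le ((A p).1 j) (p.1 j)
          linarith [c1 j, p2 j hj]
        have e6 : τ j * N (p + s • w) ≤ 2 * (N p + ε * N w) :=
          mul_le_mul t2 e3 (N0 _) (by norm_num)
        have e7 : 0 ≤ τ i * (N p + ε * N w) :=
          mul_nonneg (zero_le_one.trans (τ1 i)) ((N0 _).trans e3)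
        have e8 : ε * ‖β‖ ≤ ε * ‖w - A w‖ := by gcongr
        have e9 : ε * ‖w - A w‖ + 2 * (ε * N w) + ε = 1 / 10 := by rw [← εK, hK]; ring
        nlinarith [mul_nonneg ε0.le (N0 w)]) i
    have e10 : ε * ‖β‖ ≤ ε * (τ i * N w) := by nlinarith
    exact le_of_mul_le_mul_left e10 ε0
  have top : ∀ (g : G 𝕜) i, ‖g‖ ≤ 1 → g.1 i = 1 → (g - A g).1 i = ((τ i * N g : ℝ) : 𝕜) := by
    intro g i g0 g1
    have e1 := (con g i).trans g0
    have e2 := sub g i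
    have e3 : (A g).1 i = 1 - (g - A g).1 i := by simp [g1]
    rw [e3] at e1
    set β := (g - A g).1 i
    have e4 := RCLike.re_le_norm (1 - β)
    rw [map_sub, RCLike.one_re] at e4
    have e5 := RCLike.re_le_norm β
    have e6 : RCLike.re β = ‖β‖ := by linarith
    have e7 : ‖β‖ = τ i * N g := by linarith
    rw [← e7]
    have e8 : RCLike.im β = 0 := by
      have := RCLike.norm_sq_eq_def (z := β)
      rw [e6] at this
      nlinarith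
    apply RCLike.ext <;> simp [e6, e8]
  have Nneg : ∀ g, N (-g) = N g := fun g => by
    have e1 := Nadd 0 g (-1)
    have e2 := Nadd 0 (-g) (-1)
    have e3 : ∀ g : G 𝕜, 0 + (-1 : 𝕜) • g = -g := fun g => Subtype.ext (by simp)
    rw [e3, N1, norm_neg, norm_one] at e1 e2
    rw [neg_neg] at e2
    linarith
  let ψ : I → G 𝕜 →ₗ[𝕜] 𝕜 := fun i =>
    (LinearMap.proj i).comp ((G 𝕜).subtype.comp (LinearMap.id - A))
  have hψ : ∀ i g, ψ i g = (g - A g).1 i := fun i g => rfl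
  have tne : ∀ i, ((τ i : ℝ) : 𝕜) ≠ 0 := fun i => by
    have := τ1 i
    exact_mod_cast (show τ i ≠ 0 by linarith)
  have k2 : ∀ i j : I, i ≠ j → ∀ g : G 𝕜, g.1 i = 0 → g.1 j = 0 → ψ i g = 0 := by
    intro i j hij g g1 g2
    have e1 := (wall hij (ω := 1) norm_one ((τ j : 𝕜) • ψ i - (τ i : 𝕜) • ψ j)
      fun g g0 g1 g2 => by
        simp only [LinearMap.sub_apply, LinearMap.smul_apply, hψ, top g i g0 g1, top g j g0 g2]
        push_cast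
        simp only [smul_eq_mul]
        ring).2 g g1 g2
    have e2 := (wall hij (ω := -1) (by simp) ((τ j : 𝕜) • ψ i + (τ i : 𝕜) • ψ j)
      fun g g0 g1 g2 => by
        have := top (-g) j (by rwa [norm_neg]) (by simp [g2])
        rw [← hψ, map_neg, Nneg, neg_eq_iff_eq_neg] at this
        simp only [LinearMap.add_apply, LinearMap.smul_apply, this, hψ i, top g i g0 g1]
        push_cast
        simp only [smul_eq_mul]
        ring).2 g g1 g2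
    simp only [LinearMap.sub_apply, LinearMap.add_apply, LinearMap.smul_apply, smul_eq_mul] at e1 e2
    have e3 : (2 * (τ j : 𝕜)) * ψ i g = 0 := by linear_combination e1 + e2
    exact (mul_eq_zero.1 e3).resolve_left (mul_ne_zero two_ne_zero (tne j))
  have k3 : ∀ (i : I) (g : G 𝕜), g.1 i = 0 → ψ i g = 0 := by
    intro i g g1
    obtain ⟨j, l, hij, hil, hjl⟩ : ∃ j l : I, i ≠ j ∧ i ≠ l ∧ j ≠ l :=
      ⟨(i.1 + 1, i.2), (i.1, i.2 + 1), by simp [Prod.ext_iff], by simp [Prod.ext_iff],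
        by simp [Prod.ext_iff]⟩
    obtain ⟨q, q1, q2, q3, -⟩ := ex_p 𝕜 j i l
    have e1 := k2 i l hil q (q2 hij) (q3 hjl.symm)
    have e2 := k2 i j hij (g - g.1 j • q) (by simp [g1, q2 hij]) (by simp [q1])
    simpa [e1] using e2
  have k4 : ∀ (i : I) (p g : G 𝕜), ‖p‖ ≤ 1 → p.1 i = 1 → ψ i g = g.1 i * (τ i * N p : ℝ) := by
    intro i p g p0 p1
    have := k3 i (g - g.1 i • p) (by simp [p1])
    rw [map_sub, map_smul, hψ i p, top p i p0 p1, sub_eq_zero] at this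
    exact this
  obtain ⟨p, p1, -, -, p2⟩ := ex_p 𝕜 (0, 0) (0, 0) (0, 0)
  have np : ‖p‖ ≤ 1 := (nrm_le_iff zero_le_one).2 fun m => by
    by_cases hm : m = (0, 0)
    · rw [hm, p1, norm_one]
    · linarith [p2 m hm]
  have k5 : ∀ (i : I) (g : G 𝕜), ψ i g = g.1 i * (τ i * N p : ℝ) := by
    intro i g
    by_cases hi : i = (0, 0)
    · exact k4 i p g np (hi ▸ p1)
    obtain ⟨q, q0, q1, q2⟩ := (wall hi (ω := (1 : 𝕜)) norm_one 0 fun _ _ _ _ => rfl).1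
    have e1 := k4 (0, 0) p q np p1
    rw [hψ, top q _ q0 q2, q2, one_mul] at e1
    have e2 : N q = N p := by
      have e3 : τ (0, 0) * N q = τ (0, 0) * N p := by exact_mod_cast e1
      exact mul_left_cancel₀ (by linarith [τ1 (0, 0)]) e3
    rw [← e2]
    exact k4 i q g q0 q1
  have k6 : (N p : 𝕜) = 0 := by
    have e1 : ∑ b, ψ (0, b) p = 0 := (p - A p).2.1 0
    have e2 : ∀ b, ψ (0, b) p = p.1 (0, b) * N p + if b = 0 then (N p : 𝕜) else 0 := fun b => by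
      rw [k5]
      by_cases hb : b = 0
      · simp [hb, τ, p1, two_mul]
      · simp [hb, τ]
    simp only [e2, sum_add_distrib, ← sum_mul, p.2.1 0] at e1
    simpa using e1
  ext g i
  have := k5 i g
  rw [hψ, show N p = 0 by exact_mod_cast k6, mul_zero, RCLike.ofReal_zero, mul_zero] at this
  exact (sub_eq_zero.1 this).symm

end Pool.Agent.H.MP_317a58_an
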