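import Pool.Agent.H.MP_317a58_an.A

set_option autoImplicit false

namespace Pool.Agent.H.MP_317a58_an

open Finset Filter Topology

variable {𝕜 : Type*} [RCLike 𝕜]

lemma lim_lin (U : Ultrafilter ℕ) (T : ℕ → G 𝕜 →ₗ[𝕜] G 𝕜) (h : ∀ m g, ‖T m g‖ ≤ 2 * ‖g‖) :
    ∃ A : G 𝕜 →ₗ[𝕜] G 𝕜, ∀ g, Tendsto (fun m => T m g) U (𝓝 (A g)) := by
  have := FiniteDimensional.proper_rclike 𝕜 (G 𝕜)
  have k : ∀ g, ∃ y, Tendsto (fun m => T m g) U (𝓝 y) := fun g => by
    obtain ⟨y, -, hy⟩ := (isCompact_closedBall (0 : G 𝕜) (2 * ‖g‖)).ultrafilter_le_nhds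
      (U.map fun m => T m g) (le_principal_iff.2 (by
        change ∀ᶠ m in (U : Filter ℕ), _
        exact Eventually.of_forall fun m => mem_closedBall_zero_iff.2 (h m g)))
    exact ⟨y, hy⟩
  choose f hf using k
  exact ⟨linearMapOfTendsto f T (tendsto_pi_nhds.2 hf), hf⟩

lemma lim_real (U : Ultrafilter ℕ) (f : ℕ → ℝ) {C : ℝ} (h : ∀ m, |f m| ≤ C) :
    ∃ y, Tendsto f U (𝓝 y) := by
  obtain ⟨y, -, hy⟩ := (isCompact_closedBall (0 : ℝ) C).ultrafilter_le_nhds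
    (U.map f) (le_principal_iff.2 (by
      change ∀ᶠ m in (U : Filter ℕ), _
      exact Eventually.of_forall fun m => mem_closedBall_zero_iff.2 (h m)))
  exact ⟨y, hy⟩

/-- finite-dimensional data coming from two consecutive projections -/
structure Data (δ : ℝ) (t : I → G 𝕜) (A A' : G 𝕜 →ₗ[𝕜] G 𝕜) (N : G 𝕜 → ℝ) : Prop where
  N0 : ∀ g, 0 ≤ N g
  N1 : N 0 = 0
  Nadd : ∀ (g w : G 𝕜) (s : 𝕜), N (g + s • w) ≤ N g + ‖s‖ * N w
  h : ∀ (g v : G 𝕜) (M : ℝ), (∀ j, ‖(g - (v - A v)).1 j‖ + τ j * N v ≤ M) →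
      ∀ i, ‖(A g).1 i‖ + τ i * N g ≤ (1 + δ) * M
  con : ∀ g, ‖A' g‖ ≤ (1 + δ) * ‖g‖
  rk : ∀ g g' i j, (A g - A' g).1 i * (A g' - A' g').1 j = (A g - A' g).1 j * (A g' - A' g').1 i
  c1 : ∑ i, ‖t i - A (t i)‖ ≤ 1 / 10
  c2 : 1 / 10 ≤ ∑ i, ‖t i - A' (t i)‖

lemma no_data0 {t : I → G 𝕜} (ht : ∀ i, (t i).1 i = 1 ∧ ∀ m, m ≠ i → ‖(t i).1 m‖ ≤ 1 / 3)
    {A A' : G 𝕜 →ₗ[𝕜] G 𝕜} {N : G 𝕜 → ℝ} (d : Data 0 t A A' N) : False := by
  have e1 : A = LinearMap.id := s1 A N d.N0 d.N1 d.Nadd (by simpa using d.h) fun i =>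
    ⟨t i, (ht i).1, (ht i).2, (single_le_sum (f := fun i => ‖t i - A (t i)‖)
      (fun _ _ => norm_nonneg _) (mem_univ i)).trans d.c1⟩
  have rk := d.rk
  simp only [e1, LinearMap.id_apply] at rk
  obtain ⟨g0, i0, h0⟩ : ∃ g0 i0, (g0 - A' g0).1 i0 ≠ 0 := by
    by_contra! hc
    have := d.c2
    have e : ∀ g, g - A' g = 0 := fun g => Subtype.ext (funext (hc g))
    simp only [e, norm_zero, sum_const_zero] at this
    linarith
  let ℓ : G 𝕜 →ₗ[𝕜] 𝕜 := ((g0 - A' g0).1 i0)⁻¹ •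
    (LinearMap.proj i0).comp ((G 𝕜).subtype.comp (LinearMap.id - A'))
  have hℓ : ∀ g, ℓ g = ((g0 - A' g0).1 i0)⁻¹ * (g - A' g).1 i0 := fun g => rfl
  have e2 : ∀ g, ℓ g • (g0 - A' g0) = g - A' g := fun g => Subtype.ext (funext fun j => by
    change ℓ g * (g0 - A' g0).1 j = _
    rw [hℓ, mul_assoc, rk g g0 i0 j]
    field_simp)
  have e3 := s2 (u := g0 - A' g0) (fun h => h0 (by rw [h]; rfl)) ℓ fun g => by
    rw [e2, sub_sub_cancel]
    simpa using d.con g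
  have := hℓ g0
  rw [e3, inv_mul_cancel₀ h0] at this
  exact zero_ne_one this

lemma no_data {t : I → G 𝕜} (ht : ∀ i, (t i).1 i = 1 ∧ ∀ m, m ≠ i → ‖(t i).1 m‖ ≤ 1 / 3) :
    ∃ δ : ℝ, 0 < δ ∧ ∀ (A A' : G 𝕜 →ₗ[𝕜] G 𝕜) (N : G 𝕜 → ℝ), ¬Data δ t A A' N := by
  by_contra! hc
  choose A A' N d using fun m : ℕ => hc (1 / ((m : ℝ) + 1)) (by positivity)
  have δ1 : ∀ m : ℕ, 1 + 1 / ((m : ℝ) + 1) ≤ 2 := fun m => by
    have : 1 / ((m : ℝ) + 1) ≤ 1 := by
      rw [div_le_one (by positivity)]; linarith [m.cast_nonneg (α := ℝ)]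
    linarith
  have con : ∀ m (g : G 𝕜) i, ‖(A m g).1 i‖ + τ i * N m g ≤ 2 * ‖g‖ := fun m g i =>
    ((d m).h g 0 ‖g‖ (fun j => by simpa [(d m).N1] using nrm_le g j) i).trans
      (mul_le_mul_of_nonneg_right (δ1 m) (norm_nonneg _))
  let U := hyperfilter ℕ
  obtain ⟨B, hB⟩ := lim_lin U A fun m g => (nrm_le_iff (by positivity)).2 fun i => by
    nlinarith [con m g i, τ1 i, (d m).N0 g]
  obtain ⟨B', hB'⟩ := lim_lin U A' fun m g => ((d m).con g).trans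
    (mul_le_mul_of_nonneg_right (δ1 m) (norm_nonneg _))
  choose L hL using fun g => lim_real U (fun m => N m g) (C := 2 * ‖g‖) fun m => by
    rw [abs_of_nonneg ((d m).N0 g)]
    nlinarith [con m g (0, 0), τ1 (0, 0), (d m).N0 g, norm_nonneg ((A m g).1 (0, 0))]
  have hδ : Tendsto (fun m : ℕ => 1 + 1 / ((m : ℝ) + 1)) U (𝓝 (1 + 0)) :=
    (tendsto_one_div_add_atTop_nhds_zero_nat.const_add 1).mono_left Nat.hyperfilter_le_atTop
  have co : ∀ i, Continuous fun g : G 𝕜 => g.1 i := fun i =>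
    (continuous_apply i).comp continuous_subtype_val
  refine no_data0 ht (A := B) (A' := B') (N := L) ⟨fun g => ge_of_tendsto' (hL g)
    fun m => (d m).N0 g, ?_, fun g w s => ?_, fun g v M hM i => ?_, fun g => ?_,
    fun g g' i j => ?_, ?_, ?_⟩
  · refine tendsto_nhds_unique (hL 0) ?_
    simp only [(d _).N1]
    exact tendsto_const_nhds
  · exact le_of_tendsto_of_tendsto' (hL _) ((hL g).add ((hL w).const_mul _))
      fun m => (d m).Nadd g w s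
  · refine le_of_forall_pos_le_add fun ε hε => ?_
    have e1 : ∀ᶠ m in (U : Filter ℕ), ∀ j,
        ‖(g - (v - A m v)).1 j‖ + τ j * N m v ≤ M + ε := eventually_all.2 fun j =>
      ((((co j).tendsto _).comp (((hB v).const_sub v).const_sub g)).norm.add
        ((hL v).const_mul (τ j))).eventually (ge_mem_nhds ((hM j).trans_lt (by linarith)))
    have e2 := le_of_tendsto_of_tendsto
      ((((co i).tendsto _).comp (hB g)).norm.add ((hL g).const_mul (τ i))) (hδ.mul_const (M + ε))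
      (e1.mono fun m hm => (d m).h g v _ hm i)
    linarith
  · exact le_of_tendsto_of_tendsto' (hB' g).norm (hδ.mul_const _) fun m => (d m).con g
  · have k : ∀ g i, Tendsto (fun m => (A m g - A' m g).1 i) U (𝓝 ((B g - B' g).1 i)) :=
      fun g i => ((co i).tendsto _).comp ((hB g).sub (hB' g))
    refine tendsto_nhds_unique ((k g i).mul (k g' j)) ?_
    simp only [(d _).rk g g' i j]
    exact (k g j).mul (k g' i)
  · exact le_of_tendsto' (tendsto_finsetSum _ fun i _ => ((hB (t i)).const_sub _).norm)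
      fun m => (d m).c1
  · exact ge_of_tendsto' (tendsto_finsetSum _ fun i _ => ((hB' (t i)).const_sub _).norm)
      fun m => (d m).c2

variable {E : Type*} [NormedAddCommGroup E] [NormedSpace 𝕜 E]

lemma ex_emb (hE : ¬FiniteDimensional 𝕜 E) :
    ∃ (ι : G 𝕜 →L[𝕜] E) (Q : E →L[𝕜] G 𝕜), ∀ g, Q (ι g) = g := by
  have h1 : (Module.finrank 𝕜 (G 𝕜) : Cardinal) ≤ Module.rank 𝕜 E := by
    refine Cardinal.natCast_lt_aleph0.le.trans (not_lt.1 fun h => hE ?_)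
    exact Module.rank_lt_aleph0_iff.1 h
  obtain ⟨f, hf⟩ := exists_linearIndependent_of_le_rank h1
  let ι : G 𝕜 →ₗ[𝕜] E := (Module.finBasis 𝕜 (G 𝕜)).constr 𝕜 f
  have hι : Function.Injective ι := (Module.finBasis 𝕜 (G 𝕜)).injective_constr_of_linearIndependent hf
  let e := (LinearEquiv.ofInjective ι hι).symm
  obtain ⟨Q, hQ⟩ := (LinearMap.toContinuousLinearMap
    e.toLinearMap).exist_extension_of_finiteDimensional_range
  refine ⟨LinearMap.toContinuousLinearMap ι, Q, fun g => ?_⟩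
  have := DFunLike.congr_fun hQ (LinearEquiv.ofInjective ι hι g)
  simp only [LinearMap.coe_toContinuousLinearMap', LinearEquiv.coe_coe, e,
    LinearEquiv.symm_apply_apply] at this
  exact this.symm

/-- the new norm -/
noncomputable def nn (ι : G 𝕜 →L[𝕜] E) (Q : E →L[𝕜] G 𝕜) (x : E) : ℝ :=
  ‖fun i : I => ‖(Q x).1 i‖ + τ i * ‖x - ι (Q x)‖‖

variable (ι : G 𝕜 →L[𝕜] E) (Q : E →L[𝕜] G 𝕜)

lemma nn_pos (x : E) (i : I) : 0 ≤ ‖(Q x).1 i‖ + τ i * ‖x - ι (Q x)‖ := by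
  have := τ1 i
  positivity

lemma le_nn (x : E) (i : I) : ‖(Q x).1 i‖ + τ i * ‖x - ι (Q x)‖ ≤ nn ι Q x :=
  (le_abs_self _).trans
    (norm_le_pi_norm (fun i : I => ‖(Q x).1 i‖ + τ i * ‖x - ι (Q x)‖) i)

lemma nn_le {x : E} {M : ℝ} (h : ∀ i, ‖(Q x).1 i‖ + τ i * ‖x - ι (Q x)‖ ≤ M) : nn ι Q x ≤ M :=
  (pi_norm_le_iff_of_nonneg ((nn_pos ι Q x (0, 0)).trans (h _))).2 fun i => by
    rw [Real.norm_of_nonneg (nn_pos ι Q x i)]; exact h i

/-- the new norm as a seminorm -/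
noncomputable def sn : Seminorm 𝕜 E := Seminorm.of (nn ι Q)
  (fun x y => nn_le ι Q fun i => by
    have e1 := le_nn ι Q x i
    have e2 := le_nn ι Q y i
    have e3 : ‖(Q (x + y)).1 i‖ ≤ ‖(Q x).1 i‖ + ‖(Q y).1 i‖ := by
      rw [map_add]; exact norm_add_le _ _
    have e4 : ‖x + y - ι (Q (x + y))‖ ≤ ‖x - ι (Q x)‖ + ‖y - ι (Q y)‖ := by
      rw [map_add, map_add, add_sub_add_comm]; exact norm_add_le _ _
    nlinarith [τ1 i])
  (fun a x => by
    unfold nn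
    rw [← Real.norm_of_nonneg (norm_nonneg a), ← norm_smul]
    congr 1
    funext i
    rw [map_smul, map_smul, ← smul_sub, norm_smul]
    simp only [Pi.smul_apply, smul_eq_mul, SetLike.val_smul, norm_mul]
    ring)

lemma sn_equiv : ∃ c C : ℝ, 0 < c ∧ c ≤ C ∧ ∀ x, c * ‖x‖ ≤ sn ι Q x ∧ sn ι Q x ≤ C * ‖x‖ := by
  refine ⟨1 / (1 + ‖ι‖), 1 + ‖Q‖ + 2 * (1 + ‖ι‖ * ‖Q‖), by positivity, ?_, fun x => ⟨?_, ?_⟩⟩
  · have : 1 / (1 + ‖ι‖) ≤ 1 := by
      rw [div_le_one (by positivity)]; linarith [norm_nonneg ι]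
    have : 0 ≤ ‖Q‖ + 2 * (1 + ‖ι‖ * ‖Q‖) := by positivity
    linarith
  · change _ ≤ nn ι Q x
    have e1 : ‖Q x‖ ≤ nn ι Q x := (nrm_le_iff (r := nn ι Q x) (norm_nonneg _)).2 fun i => by
      nlinarith [le_nn ι Q x i, τ1 i, norm_nonneg (x - ι (Q x))]
    have e2 : ‖x - ι (Q x)‖ ≤ nn ι Q x := by
      nlinarith [le_nn ι Q x (0, 0), τ1 (0, 0), norm_nonneg (x - ι (Q x)),
        norm_nonneg ((Q x).1 (0, 0))]
    have e3 := norm_sub_norm_le x (ι (Q x))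
    have e4 := ι.le_opNorm (Q x)
    rw [one_div, inv_mul_le_iff₀ (by positivity)]
    nlinarith [norm_nonneg ι]
  · refine nn_le ι Q fun i => ?_
    have e1 := nrm_le (Q x) i
    have e2 := Q.le_opNorm x
    have e3 := norm_sub_le x (ι (Q x))
    have e4 := ι.le_opNorm (Q x)
    have e5 : ‖ι‖ * ‖Q x‖ ≤ ‖ι‖ * (‖Q‖ * ‖x‖) := by gcongr
    have e6 : τ i * ‖x - ι (Q x)‖ ≤ 2 * ‖x - ι (Q x)‖ := by gcongr; exact τ2 i
    nlinarith [norm_nonneg x]

theorem main (hQ : ∀ g, Q (ι g) = g) : ∃ K : ℝ, 1 < K ∧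
    ∀ (P : ℕ → E →ₗ[𝕜] E), P 0 = 0 → (∀ n x, P n (P n x) = P n x) →
      (∀ x, Tendsto (fun n => P n x) atTop (𝓝 x)) →
      (∀ n, ∃ e : E, ∀ x, ∃ c : 𝕜, P (n + 1) x - P n x = c • e) →
      ∃ n x, K * sn ι Q x < sn ι Q (P n x) := by
  choose t ht using fun i => ex_p 𝕜 i i i
  obtain ⟨δ, δ0, hδ⟩ := no_data (t := t) fun i => ⟨(ht i).1, (ht i).2.2.2⟩
  refine ⟨1 + δ, by linarith, fun P P0 PP Pl Pr => ?_⟩
  by_contra! hc
  replace hc : ∀ n x, nn ι Q (P n x) ≤ (1 + δ) * nn ι Q x := hc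
  let A : ℕ → G 𝕜 →ₗ[𝕜] G 𝕜 := fun n => Q.toLinearMap.comp ((P n).comp ι.toLinearMap)
  have hA : ∀ n g, A n g = Q (P n (ι g)) := fun n g => rfl
  have h1 : ∃ n, ∑ i, ‖t i - A n (t i)‖ ≤ 1 / 10 := by
    have : Tendsto (fun n => ∑ i, ‖t i - A n (t i)‖) atTop (𝓝 (∑ i, ‖t i - Q (ι (t i))‖)) :=
      tendsto_finsetSum _ fun i _ => (((Q.continuous.tendsto _).comp (Pl _)).const_sub _).norm
    simp only [hQ, sub_self, norm_zero, sum_const_zero] at this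
    exact (this.eventually (ge_mem_nhds (by norm_num))).exists
  classical
  have h2 : Nat.find h1 ≠ 0 := fun h => by
    have e := Nat.find_spec h1
    rw [h] at e
    have e1 := (single_le_sum (f := fun i => ‖t i - A 0 (t i)‖)
      (fun _ _ => norm_nonneg _) (mem_univ (0, 0))).trans e
    have e2 := nrm_le (t (0, 0)) (0, 0)
    simp only [hA, P0, LinearMap.zero_apply, map_zero, sub_zero] at e1
    rw [(ht _).1, norm_one] at e2
    linarith
  obtain ⟨n, hn⟩ := Nat.exists_eq_succ_of_ne_zero h2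
  have h3 := Nat.find_spec h1
  have h4 := Nat.find_min h1 (m := n) (by omega)
  rw [hn] at h3
  have nG : ∀ g, nn ι Q (ι g) ≤ ‖g‖ := fun g => nn_le ι Q fun i => by
    simpa [hQ] using nrm_le g i
  refine hδ (A (n + 1)) (A n) (fun g => ‖P (n + 1) (ι g) - ι (A (n + 1) g)‖)
    ⟨fun g => norm_nonneg _, by simp, fun g w s => ?_, fun g v M hM i => ?_, fun g => ?_,
      fun g g' i j => ?_, h3, (not_le.1 h4).le⟩
  · rw [← norm_smul]
    refine le_trans (le_of_eq ?_) (norm_add_le _ _)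
    simp only [map_add, map_smul, smul_sub]
    congr 1
    abel
  · have e1 := hc (n + 1) (ι (g - v) + P (n + 1) (ι v))
    have e2 : P (n + 1) (ι (g - v) + P (n + 1) (ι v)) = P (n + 1) (ι g) := by
      rw [map_add, PP, ← map_add, ← map_add, sub_add_cancel]
    rw [e2] at e1
    refine (le_nn ι Q _ i).trans (e1.trans (mul_le_mul_of_nonneg_left (nn_le ι Q fun j => ?_)
      (by linarith)))
    have e3 : Q (ι (g - v) + P (n + 1) (ι v)) = g - (v - A (n + 1) v) := by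
      rw [map_add, hQ, hA]; abel
    have e4 : ι (g - v) + P (n + 1) (ι v) - ι (g - (v - A (n + 1) v)) =
        P (n + 1) (ι v) - ι (A (n + 1) v) := by
      simp only [map_sub]; abel
    rw [e3, e4]
    exact hM j
  · refine (nrm_le_iff (by positivity)).2 fun i => ?_
    have e1 := le_nn ι Q (P n (ι g)) i
    have e2 := hc n (ι g)
    have e3 : (1 + δ) * nn ι Q (ι g) ≤ (1 + δ) * ‖g‖ := by gcongr; exact nG g
    rw [hA]
    nlinarith [τ1 i, norm_nonneg (P n (ι g) - ι (Q (P n (ι g))))]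
  · obtain ⟨e, he⟩ := Pr n
    obtain ⟨c, h5⟩ := he (ι g)
    obtain ⟨c', h6⟩ := he (ι g')
    simp only [hA, ← map_sub, h5, h6, map_smul, SetLike.val_smul, Pi.smul_apply, smul_eq_mul]
    ring

end Pool.Agent.H.MP_317a58_an
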